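import Pool.Agent.R419.CG.Defs
import Pool.Agent.Y495.CX.FEW

/-!
# Project CF: few sets have few large primes

Copy of parts of the file `Y495/CX/FEW.lean` with `SG` in place of `SS`.
-/

set_option autoImplicit false

open scoped Classical

namespace Pool.Agent.R419.CG.Few

open Finset Filter
open Pool.Agent.Y703.CX
open Pool.Agent.R419.CG
open Pool.Agent.Y495.CX.Few (PN euler le_of_mem_prod LL mem_LL LL_sub mert eL_tendsto log_small zz_ge
  loglog_zz rpow_eq part2)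

lemma SG_mem {X : ℕ} {S : Finset ℕ} (h : S ∈ SG X) :
    (∀ p ∈ S, p.Prime ∧ p ≠ 3) ∧ (S.filter fun p => p % 3 = 2).card = 1 ∧ ∏ p ∈ S, p ≤ X := by
  rw [mem_SG] at h
  exact ⟨h.1.1, h.1.2, h.2⟩

lemma prod_pos' {S : Finset ℕ} (h : ∀ p ∈ S, p.Prime) : 0 < ∏ p ∈ S, p :=
  Finset.prod_pos fun p hp => (h p hp).pos

/-- the number of sets which contain a given one -/
lemma card_sup (X : ℕ) (S₀ : Finset ℕ) (h0 : ∀ p ∈ S₀, p.Prime) :
    (((SG X).filter fun S => S₀ ⊆ S).card : ℝ) ≤ X * ∏ p ∈ S₀, (1 : ℝ) / p := by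
  have hpos := prod_pos' h0
  have key : ((SG X).filter fun S => S₀ ⊆ S).card ≤ X / ∏ p ∈ S₀, p := by
    have h1 : (Icc 1 (X / ∏ p ∈ S₀, p)).card = X / ∏ p ∈ S₀, p := by simp
    rw [← h1]
    refine card_le_card_of_injOn (fun S => ∏ p ∈ S \ S₀, p) ?_ ?_
    · intro S hS
      rw [mem_coe, mem_filter] at hS
      obtain ⟨a1, -, a3⟩ := SG_mem hS.1
      have h2 : (∏ p ∈ S \ S₀, p) * ∏ p ∈ S₀, p = ∏ p ∈ S, p :=
        prod_sdiff hS.2
      rw [mem_coe, mem_Icc]
      refine ⟨prod_pos' fun p hp => (a1 p (mem_sdiff.1 hp).1).1, ?_⟩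
      rw [Nat.le_div_iff_mul_le hpos, h2]
      exact a3
    · intro S hS T hT hST
      rw [mem_coe, mem_filter] at hS hT
      obtain ⟨a1, -, a3⟩ := SG_mem hS.1
      obtain ⟨b1, -, b3⟩ := SG_mem hT.1
      have h2 : S \ S₀ = T \ S₀ := by
        have h3 := Nat.primeFactors_prod (s := S \ S₀) fun p hp => (a1 p (mem_sdiff.1 hp).1).1
        have h4 := Nat.primeFactors_prod (s := T \ S₀) fun p hp => (b1 p (mem_sdiff.1 hp).1).1
        rw [← h3, ← h4]
        exact congrArg Nat.primeFactors hST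
      rw [← sdiff_union_of_subset hS.2, h2, sdiff_union_of_subset hT.2]
  have h2 : ((X / ∏ p ∈ S₀, p : ℕ) : ℝ) ≤ (X : ℝ) / ((∏ p ∈ S₀, p : ℕ) : ℝ) := Nat.cast_div_le
  have h3 : (X : ℝ) * ∏ p ∈ S₀, (1 : ℝ) / p = (X : ℝ) / ((∏ p ∈ S₀, p : ℕ) : ℝ) := by
    rw [prod_div_distrib, prod_const_one]
    push_cast
    ring
  rw [h3]
  exact (by exact_mod_cast key : (((SG X).filter fun S => S₀ ⊆ S).card : ℝ) ≤
    ((X / ∏ p ∈ S₀, p : ℕ) : ℝ)).trans h2

/-- the moments of the number of small primes -/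
lemma moment (X z : ℕ) (κ : ℝ) (hκ : 0 ≤ κ) :
    ∑ S ∈ SG X, κ ^ (sm z S).card ≤ X * Real.exp (κ * ∑ p ∈ PN z, (1 : ℝ) / p) := by
  have hmaps : ∀ S ∈ SG X, sm z S ∈ (PN z).powerset := by
    intro S hS
    rw [mem_powerset]
    intro p hp
    unfold sm at hp
    rw [mem_filter] at hp
    have h1 := ((SG_mem hS).1 p hp.1).1
    rw [mem_filter, mem_Icc]
    exact ⟨⟨h1.one_lt.le, hp.2⟩, h1⟩
  rw [← sum_fiberwise_of_maps_to hmaps]
  have h1 : ∀ S₀ ∈ (PN z).powerset, ∑ S ∈ (SG X).filter (fun S => sm z S = S₀),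
      κ ^ (sm z S).card ≤ X * ∏ p ∈ S₀, κ * (1 / (p : ℝ)) := by
    intro S₀ hS₀
    rw [mem_powerset] at hS₀
    have h2 : ∑ S ∈ (SG X).filter (fun S => sm z S = S₀), κ ^ (sm z S).card =
        (((SG X).filter fun S => sm z S = S₀).card : ℝ) * κ ^ S₀.card := by
      rw [← nsmul_eq_mul, ← sum_const]
      refine sum_congr rfl fun S hS => ?_
      rw [(mem_filter.1 hS).2]
    have h3 : (((SG X).filter fun S => sm z S = S₀).card : ℝ) ≤
        (((SG X).filter fun S => S₀ ⊆ S).card : ℝ) := by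
      have : ((SG X).filter fun S => sm z S = S₀).card ≤ ((SG X).filter fun S => S₀ ⊆ S).card := by
        refine card_le_card fun S hS => ?_
        rw [mem_filter] at hS ⊢
        refine ⟨hS.1, ?_⟩
        rw [← hS.2]
        exact filter_subset _ _
      exact_mod_cast this
    have h4 := card_sup X S₀ fun p hp => (mem_filter.1 (hS₀ hp)).2
    rw [h2, prod_mul_distrib, prod_const]
    have h5 : (0 : ℝ) ≤ κ ^ S₀.card := by positivity
    calc _ ≤ (X * ∏ p ∈ S₀, (1 : ℝ) / p) * κ ^ S₀.card :=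
          mul_le_mul_of_nonneg_right (h3.trans h4) h5
      _ = _ := by ring
  refine (sum_le_sum h1).trans ?_
  rw [← mul_sum]
  apply mul_le_mul_of_nonneg_left _ (Nat.cast_nonneg _)
  refine (euler (PN z) (fun p => κ * (1 / (p : ℝ))) fun p _ => by positivity).trans ?_
  rw [← mul_sum]

/-- sets with many small primes -/
lemma part1 : ∃ C : ℝ, 0 ≤ C ∧ ∀ᶠ X : ℕ in atTop,
    (((SG X).filter fun S => eL X / 20 < ((sm (zz X) S).card : ℝ)).card : ℝ) ≤
      C * X * Real.exp (-(3 / 5) * eL X) := by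
  obtain ⟨C, hC0, hC⟩ := mert
  set κ : ℝ := Real.exp 20 with hκ
  have κ0 : 0 < κ := Real.exp_pos _
  refine ⟨Real.exp (κ * C), (Real.exp_pos _).le, ?_⟩
  filter_upwards [eL_tendsto.eventually (log_small (3 * κ) (2 / 5) (by norm_num)),
    eL_tendsto.eventually (eventually_ge_atTop 2)] with X h1 h2
  have h3 := moment X (zz X) κ κ0.le
  have h4 := hC (zz X) (zz_ge h2)
  have h5 := loglog_zz h2
  have h6 : (((SG X).filter fun S => eL X / 20 < ((sm (zz X) S).card : ℝ)).card : ℝ) *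
      Real.exp (eL X) ≤ ∑ S ∈ SG X, κ ^ (sm (zz X) S).card := by
    rw [← nsmul_eq_mul, ← sum_const]
    refine le_trans ?_ (sum_le_sum_of_subset_of_nonneg
      (filter_subset (fun S => eL X / 20 < ((sm (zz X) S).card : ℝ)) (SG X))
      fun S _ _ => by positivity)
    refine sum_le_sum fun S hS => ?_
    rw [mem_filter] at hS
    rw [hκ, ← Real.exp_nat_mul]
    apply Real.exp_le_exp.2
    linarith [hS.2]
  have h7 := h6.trans h3
  have h8 : κ * ∑ p ∈ PN (zz X), (1 : ℝ) / p ≤ κ * C + 2 / 5 * eL X := by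
    have : κ * ∑ p ∈ PN (zz X), (1 : ℝ) / p ≤ κ * (3 * Real.log (eL X) + C) :=
      mul_le_mul_of_nonneg_left (by linarith) κ0.le
    nlinarith
  have h9 : (X : ℝ) * Real.exp (κ * ∑ p ∈ PN (zz X), (1 : ℝ) / p) ≤
      X * (Real.exp (κ * C) * Real.exp (2 / 5 * eL X)) := by
    rw [← Real.exp_add]
    exact mul_le_mul_of_nonneg_left (Real.exp_le_exp.2 h8) (Nat.cast_nonneg _)
  have h10 := h7.trans h9
  have h11 : (Real.exp (κ * C) * X * Real.exp (-(3 / 5) * eL X)) * Real.exp (eL X) =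
      X * (Real.exp (κ * C) * Real.exp (2 / 5 * eL X)) := by
    have : Real.exp (2 / 5 * eL X) = Real.exp (-(3 / 5) * eL X) * Real.exp (eL X) := by
      rw [← Real.exp_add]
      congr 1
      ring
    rw [this]
    ring
  rw [← h11] at h10
  exact le_of_mul_le_mul_right h10 (Real.exp_pos _)

theorem few (hs : S_SIE) (V : ℕ) : ∃ (C : ℝ) (X₀ : ℕ), ∀ X : ℕ, X₀ ≤ X →
    (((SG X).filter fun S => ((la (zz X) S).filter fun p => p % 3 = 1).card ≤
    (sm (zz X) S).card + V).card : ℝ) ≤ C * X * (Real.log X) ^ (-(3 / 5) : ℝ) := by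
  obtain ⟨C₁, hC₁, h1⟩ := part1
  obtain ⟨C₂, hC₂, h2⟩ := part2 hs
  have h3 := (h1.and h2).and (eL_tendsto.eventually (eventually_ge_atTop (max 2 (20 * (V : ℝ)))))
  rw [eventually_atTop] at h3
  obtain ⟨X₀, hX₀⟩ := h3
  refine ⟨C₁ + C₂, X₀, fun X hX => ?_⟩
  obtain ⟨⟨h4, h5⟩, h6⟩ := hX₀ X hX
  have h7 : 2 ≤ eL X := (le_max_left _ _).trans h6
  have h8 : 20 * (V : ℝ) ≤ eL X := (le_max_right _ _).trans h6
  rw [rpow_eq h7]
  have h9 : ((SG X).filter fun S => ((la (zz X) S).filter fun p => p % 3 = 1).card ≤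
      (sm (zz X) S).card + V) ⊆
      ((SG X).filter fun S => eL X / 20 < ((sm (zz X) S).card : ℝ)) ∪
        LL X (zz X) ⌊eL X / 10⌋₊ := by
    intro S hS
    rw [mem_filter] at hS
    rw [mem_union, mem_filter]
    by_cases hc : eL X / 20 < ((sm (zz X) S).card : ℝ)
    · exact Or.inl ⟨hS.1, hc⟩
    · right
      rw [not_lt] at hc
      obtain ⟨a1, a2, a3⟩ := SG_mem hS.1
      rw [mem_LL]
      refine ⟨?_, a1, a3, a2.le, ?_⟩
      · intro p hp
        rw [mem_range]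
        have := le_of_mem_prod (fun p hp => (a1 p hp).1) a3 hp
        omega
      · apply Nat.le_floor
        have h10 : ((((la (zz X) S).filter fun p => p % 3 = 1).card : ℕ) : ℝ) ≤
            ((sm (zz X) S).card : ℝ) + V := by exact_mod_cast hS.2
        linarith
  have h10 : (((SG X).filter fun S => ((la (zz X) S).filter fun p => p % 3 = 1).card ≤
      (sm (zz X) S).card + V).card : ℝ) ≤
      (((SG X).filter fun S => eL X / 20 < ((sm (zz X) S).card : ℝ)).card : ℝ) +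
        ((LL X (zz X) ⌊eL X / 10⌋₊).card : ℝ) := by
    exact_mod_cast (card_le_card h9).trans (card_union_le _ _)
  refine h10.trans ((add_le_add h4 h5).trans (le_of_eq ?_))
  ring

end Pool.Agent.R419.CG.Few
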