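import Pool.Agent.R419.CG.Defs
import Pool.Agent.Y461.CX.LowA
import Pool.Agent.Y461.CX.LOW
import Pool.Agent.Y87.CX.Mer
import Pool.Agent.TH423.SH.PAIP

/-!
# Project CG: the lower bound for the size of the class (adapted from `Pool.Agent.Y461.CX`)
-/

set_option autoImplicit false

open scoped Classical

namespace Pool.Agent.R419.CG

open Finset Filter
open Pool.Agent.Y703.CX
open Pool.Agent.Y461.CX (M1 mem_M1 prod_mod_three G1_lower)

/-- the class modulo `9` of the additional prime -/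
def aa (m : ℕ) : ℕ := if m % 9 = 4 then 8 else if m % 9 = 1 then 5 else 2

theorem aa_or (m : ℕ) : aa m = 2 ∨ aa m = 5 ∨ aa m = 8 := by
  unfold aa; split_ifs <;> simp

theorem che5 : ∃ (c : ℝ) (Y₀ : ℕ), 0 < c ∧ ∀ Y : ℕ, Y₀ ≤ Y → ∀ a : ℕ, (a = 2 ∨ a = 5 ∨ a = 8) →
    c * Y / Real.log Y ≤ (((range (Y + 1)).filter fun p => p.Prime ∧ p % 9 = a).card : ℝ) := by
  obtain ⟨x₀, hx₀⟩ := Pool.Agent.TH423.SH.pai 9 (by norm_num) (1 / 2) (1 / 4) (by norm_num)
    (by norm_num)
  refine ⟨1 / 48, max 4 ⌈x₀⌉₊, by norm_num, ?_⟩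
  intro Y hY a ha
  have hY4 : 4 ≤ Y := le_trans (le_max_left _ _) hY
  have hYx : x₀ ≤ (Y : ℝ) := (Nat.le_ceil x₀).trans (by exact_mod_cast (le_max_right _ _).trans hY)
  have hY4' : (4 : ℝ) ≤ Y := by exact_mod_cast hY4
  have hdiv1 : ((Y / 2 : ℕ) : ℝ) ≤ (Y : ℝ) / 2 := Nat.cast_div_le
  have hdiv2 : (Y : ℝ) / 2 ≤ ((Y / 2 + 1 : ℕ) : ℝ) := by
    have : Y < 2 * (Y / 2 + 1) := by omega
    have : (Y : ℝ) < 2 * ((Y / 2 + 1 : ℕ) : ℝ) := by exact_mod_cast this
    linarith
  have hco : a.Coprime 9 := by rcases ha with rfl | rfl | rfl <;> decide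
  have ham : a % 9 = a := by rcases ha with rfl | rfl | rfl <;> rfl
  have hlog : 0 < Real.log Y := Real.log_pos (by linarith)
  have h := hx₀ Y hYx (Y / 2 + 1) Y a hdiv2 (by linarith)
    (by push_cast; linarith) hco
  have htot : Nat.totient 9 = 6 := by decide
  rw [ham, htot] at h
  have h1 := (abs_le.mp h).1
  have hsub : (Ioc (Y / 2 + 1) Y).filter (fun q => q.Prime ∧ q % 9 = a) ⊆
      (range (Y + 1)).filter fun p => p.Prime ∧ p % 9 = a := by
    intro q hq
    rw [mem_filter, mem_Ioc] at hq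
    rw [mem_filter, mem_range]
    exact ⟨by omega, hq.2⟩
  have hcard : (((Ioc (Y / 2 + 1) Y).filter (fun q => q.Prime ∧ q % 9 = a)).card : ℝ) ≤
      (((range (Y + 1)).filter fun p => p.Prime ∧ p % 9 = a).card : ℝ) := by
    exact_mod_cast Finset.card_le_card hsub
  refine le_trans ?_ hcard
  have h2 : (1 / 2 : ℝ) * (((Y : ℝ) - ((Y / 2 + 1 : ℕ) : ℝ)) / ((6 : ℕ) * Real.log Y)) ≤
      (((Ioc (Y / 2 + 1) Y).filter (fun q => q.Prime ∧ q % 9 = a)).card : ℝ) := by
    linarith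
  refine le_trans ?_ h2
  have h3 : (Y : ℝ) / 4 ≤ (Y : ℝ) - ((Y / 2 + 1 : ℕ) : ℝ) := by push_cast; linarith
  have h4 : (Y : ℝ) / 4 / ((6 : ℕ) * Real.log Y) ≤
      ((Y : ℝ) - ((Y / 2 + 1 : ℕ) : ℝ)) / ((6 : ℕ) * Real.log Y) := by
    apply div_le_div_of_nonneg_right h3
    positivity
  calc (1 / 48 : ℝ) * Y / Real.log Y = 1 / 2 * ((Y : ℝ) / 4 / ((6 : ℕ) * Real.log Y)) := by
        push_cast; field_simp; ring
    _ ≤ _ := by linarith

/-- the pairs -/
noncomputable def DD (X y : ℕ) : Finset (Σ _ : Finset ℕ, ℕ) :=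
  (M1 y).sigma fun S => (range (X / (∏ p ∈ S, p) + 1)).filter
    fun q => q.Prime ∧ q % 9 = aa (∏ p ∈ S, p)

theorem card_DD_le (X y : ℕ) (hy : y ≤ X) : (DD X y).card ≤ (SS5 X).card := by
  refine Finset.card_le_card_of_injOn (fun t => insert t.2 t.1) ?_ ?_
  · rintro ⟨S, q⟩ ht
    rw [mem_coe, DD, mem_sigma, mem_filter, mem_range] at ht
    obtain ⟨hS, hq, hqp, hq9⟩ := ht
    obtain ⟨h1, h2⟩ := mem_M1 hS
    simp only at hq hqp hq9
    have hq3 : q % 3 = 2 := by
      have : q % 9 = 2 ∨ q % 9 = 5 ∨ q % 9 = 8 := by rw [hq9]; exact aa_or _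
      omega
    have hqS : q ∉ S := fun h => by have := (h1 q h).2.1; omega
    have hm0 : 0 < ∏ p ∈ S, p := Finset.prod_pos fun p hp => (h1 p hp).1.pos
    have hqm : q * ∏ p ∈ S, p ≤ X := by
      have : q ≤ X / ∏ p ∈ S, p := by omega
      exact (Nat.le_div_iff_mul_le hm0).mp this
    have hm3 := prod_mod_three S fun p hp => (h1 p hp).2.1
    rw [mem_coe, SS5, mem_filter, SS, mem_filter, mem_powerset]
    refine ⟨⟨?_, ⟨?_, ?_, ?_, ?_⟩, ?_⟩, ?_⟩
    · intro p hp
      rw [mem_insert] at hp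
      rw [mem_range]
      rcases hp with rfl | hp
      · have : p ≤ p * ∏ p ∈ S, p := Nat.le_mul_of_pos_right _ hm0
        omega
      · have := (h1 p hp).2.2; omega
    · intro p hp
      rw [mem_insert] at hp
      rcases hp with rfl | hp
      · exact ⟨hqp, by omega⟩
      · have := h1 p hp
        exact ⟨this.1, by omega⟩
    · rw [Finset.card_eq_one]
      refine ⟨q, ?_⟩
      ext p
      simp only [mem_filter, mem_insert, mem_singleton]
      constructor
      · rintro ⟨rfl | hp, h3⟩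
        · rfl
        · have := (h1 p hp).2.1; omega
      · rintro rfl
        exact ⟨Or.inl rfl, hq3⟩
    · rw [Finset.prod_insert hqS, Nat.mul_mod, hq9]
      unfold aa
      have : (∏ p ∈ S, p) % 9 = 1 ∨ (∏ p ∈ S, p) % 9 = 4 ∨ (∏ p ∈ S, p) % 9 = 7 := by omega
      rcases this with h | h | h <;> rw [h] <;> norm_num
    · rw [Finset.prod_insert hqS, Nat.mul_mod, hq9]
      unfold aa
      have : (∏ p ∈ S, p) % 9 = 1 ∨ (∏ p ∈ S, p) % 9 = 4 ∨ (∏ p ∈ S, p) % 9 = 7 := by omega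
      rcases this with h | h | h <;> rw [h] <;> norm_num
    · rw [Finset.prod_insert hqS]
      exact hqm
    · rw [Finset.prod_insert hqS, Nat.mul_mod, hq9]
      unfold aa
      have : (∏ p ∈ S, p) % 9 = 1 ∨ (∏ p ∈ S, p) % 9 = 4 ∨ (∏ p ∈ S, p) % 9 = 7 := by omega
      rcases this with h | h | h <;> rw [h] <;> simp
  · rintro ⟨S, q⟩ ht ⟨S', q'⟩ ht' he
    rw [mem_coe, DD, mem_sigma, mem_filter, mem_range] at ht ht'
    obtain ⟨hS, hq, hqp, hq9⟩ := ht
    obtain ⟨hS', hq', hqp', hq9'⟩ := ht'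
    obtain ⟨h1, h2⟩ := mem_M1 hS
    obtain ⟨h1', h2'⟩ := mem_M1 hS'
    simp only at hq hqp hq9 hq' hqp' hq9' he h1 h1'
    have hq3 : q % 3 = 2 := by
      have : q % 9 = 2 ∨ q % 9 = 5 ∨ q % 9 = 8 := by rw [hq9]; exact aa_or _
      omega
    have hq3' : q' % 3 = 2 := by
      have : q' % 9 = 2 ∨ q' % 9 = 5 ∨ q' % 9 = 8 := by rw [hq9']; exact aa_or _
      omega
    have hqq : q = q' := by
      have : q ∈ insert q' S' := by rw [← he]; exact mem_insert_self _ _
      rw [mem_insert] at this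
      rcases this with h | h
      · exact h
      · have := (h1' q h).2.1; omega
    subst hqq
    have hSS : S = S' := by
      have e1 : ∀ (T : Finset ℕ), (∀ p ∈ T, p % 3 = 1) →
          (insert q T).filter (fun p => p % 3 = 1) = T := by
        intro T hT
        ext p
        simp only [mem_filter, mem_insert]
        constructor
        · rintro ⟨rfl | h, h3⟩
          · omega
          · exact h
        · intro h; exact ⟨Or.inr h, hT p h⟩
      rw [← e1 S fun p hp => (h1 p hp).2.1, he, e1 S' fun p hp => (h1' p hp).2.1]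
    subst hSS
    rfl

theorem low5 : LOW5 := by
  obtain ⟨C, hC⟩ := Pool.Agent.Y87.CX.t_MER
  obtain ⟨c, Y₀, hc, hche⟩ := che5
  refine ⟨c / 2 * (3 / 8 * Real.exp (-C) / 2), (max 3 (Y₀ + 3)) ^ 2, by positivity, ?_⟩
  intro X hX
  set y := Nat.sqrt X with hy
  have hyM : max 3 (Y₀ + 3) ≤ y := by
    rw [hy]
    rw [← Nat.sqrt_eq' (max 3 (Y₀ + 3))]
    exact Nat.sqrt_le_sqrt hX
  have hy3 : 3 ≤ y := (le_max_left _ _).trans hyM
  have hyY : Y₀ + 3 ≤ y := (le_max_right _ _).trans hyM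
  have hyX : y * y ≤ X := Nat.sqrt_le X
  have hXy : X < (y + 1) * (y + 1) := Nat.lt_succ_sqrt X
  have hyX1 : y ≤ X := le_trans (Nat.le_mul_of_pos_left y (by omega)) hyX
  have hX4 : X ≤ y ^ 4 := by
    have : (y + 1) * (y + 1) ≤ y ^ 4 := by
      have h1 : y + 1 ≤ y * y := by nlinarith
      calc (y + 1) * (y + 1) ≤ (y * y) * (y * y) := Nat.mul_le_mul h1 h1
        _ = y ^ 4 := by ring
    omega
  have hy1 : (1 : ℝ) < y := by exact_mod_cast (show 1 < y by omega)
  have hX1 : (1 : ℝ) < X := by exact_mod_cast (show 1 < X by omega)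
  have hlogy : 0 < Real.log y := Real.log_pos hy1
  have hlogX : 0 < Real.log X := Real.log_pos hX1
  have hlog4 : Real.log X ≤ 4 * Real.log y := by
    have : Real.log X ≤ Real.log ((y : ℝ) ^ 4) := by
      apply Real.log_le_log (by linarith)
      exact_mod_cast hX4
    rwa [Real.log_pow] at this
  -- the sum
  have hsum : ∑ S ∈ M1 y, c / 2 * (X / Real.log X) * ((1 : ℝ) / ((∏ p ∈ S, p : ℕ) : ℝ)) ≤
      ((DD X y).card : ℝ) := by
    rw [DD, Finset.card_sigma, Nat.cast_sum]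
    refine Finset.sum_le_sum fun S hS => ?_
    obtain ⟨h1, h2⟩ := mem_M1 hS
    set m := ∏ p ∈ S, p with hm
    have hm0 : 0 < m := Finset.prod_pos fun p hp => (h1 p hp).1.pos
    have hYy : y ≤ X / m := by
      rw [Nat.le_div_iff_mul_le hm0]
      exact (Nat.mul_le_mul_left y h2).trans hyX
    have h3 := hche (X / m) (by omega) (aa m) (aa_or m)
    refine le_trans ?_ h3
    have hYX : X / m ≤ X := Nat.div_le_self _ _
    have hY1 : (1 : ℝ) < ((X / m : ℕ) : ℝ) := by exact_mod_cast (show 1 < X / m by omega)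
    have hlY : 0 < Real.log ((X / m : ℕ) : ℝ) := Real.log_pos hY1
    have hlYX : Real.log ((X / m : ℕ) : ℝ) ≤ Real.log X :=
      Real.log_le_log (by linarith) (by exact_mod_cast hYX)
    have hhalf : (X : ℝ) / (2 * m) ≤ ((X / m : ℕ) : ℝ) := by
      have h4 : X < m * (X / m) + m := by
        have := Nat.div_add_mod X m
        have := Nat.mod_lt X hm0
        omega
      have h5 : (X : ℝ) < m * ((X / m : ℕ) : ℝ) + m := by exact_mod_cast h4
      have hm' : (0 : ℝ) < m := by exact_mod_cast hm0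
      rw [div_le_iff₀ (by positivity)]
      nlinarith
    calc c / 2 * (X / Real.log X) * ((1 : ℝ) / (m : ℝ)) = c * ((X : ℝ) / (2 * m)) / Real.log X := by
          have hm' : (m : ℝ) ≠ 0 := by exact_mod_cast hm0.ne'
          field_simp
      _ ≤ c * ((X / m : ℕ) : ℝ) / Real.log X := by
          apply div_le_div_of_nonneg_right _ hlogX.le
          exact mul_le_mul_of_nonneg_left hhalf hc.le
      _ ≤ c * ((X / m : ℕ) : ℝ) / Real.log ((X / m : ℕ) : ℝ) := by
          apply div_le_div_of_nonneg_left (by positivity) hlY hlYX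
  rw [← Finset.mul_sum] at hsum
  have hG := G1_lower C y hy3 (by
    refine le_trans (le_of_eq ?_) (hC y hy3)
    refine Finset.sum_congr ?_ fun _ _ => rfl
    ext p
    simp only [mem_filter])
  have hcard : ((DD X y).card : ℝ) ≤ ((SS5 X).card : ℝ) := by
    exact_mod_cast card_DD_le X y hyX1
  refine le_trans ?_ (hsum.trans hcard)
  have h6 : 0 ≤ c / 2 * (X / Real.log X) := by positivity
  refine le_trans ?_ (mul_le_mul_of_nonneg_left hG h6)
  -- the square root of the logarithm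
  have h7 : (Real.log X) ^ (1 / 2 : ℝ) ≤ 2 * (Real.log y) ^ (1 / 2 : ℝ) := by
    have h8 : (Real.log X) ^ (1 / 2 : ℝ) ≤ (4 * Real.log y) ^ (1 / 2 : ℝ) :=
      Real.rpow_le_rpow hlogX.le hlog4 (by norm_num)
    rw [Real.mul_rpow (by norm_num) hlogy.le] at h8
    have h9 : (4 : ℝ) ^ (1 / 2 : ℝ) = 2 := by
      rw [show (4 : ℝ) = 2 ^ (2 : ℝ) by norm_num, ← Real.rpow_mul (by norm_num)]
      norm_num
    rwa [h9] at h8
  have h10 : (Real.log X) ^ (-(1 / 2) : ℝ) = (Real.log X) ^ (1 / 2 : ℝ) / Real.log X := by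
    rw [eq_div_iff hlogX.ne']
    nth_rewrite 2 [← Real.rpow_one (Real.log X)]
    rw [← Real.rpow_add hlogX]
    norm_num
  rw [h10]
  have hee : 0 < Real.exp (-C) := Real.exp_pos _
  calc c / 2 * (3 / 8 * Real.exp (-C) / 2) * X * ((Real.log X) ^ (1 / 2 : ℝ) / Real.log X)
      = c / 2 * (X / Real.log X) * (3 / 8 * Real.exp (-C) / 2 * (Real.log X) ^ (1 / 2 : ℝ)) := by
        ring
    _ ≤ c / 2 * (X / Real.log X) *
        (3 / 8 * Real.exp (-C) / 2 * (2 * (Real.log y) ^ (1 / 2 : ℝ))) := by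
        apply mul_le_mul_of_nonneg_left _ h6
        apply mul_le_mul_of_nonneg_left h7 (by positivity)
    _ = c / 2 * (X / Real.log X) * (3 / 8 * Real.exp (-C) * (Real.log y) ^ (1 / 2 : ℝ)) := by ring

end Pool.Agent.R419.CG
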