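import Pool.Agent.R419.CG.Asy
import Pool.Agent.R419.CG.Low5
import Pool.Agent.Y703.CX.Fin

/-!
# Project CG: the exact proportion of the good cube-free `D ≡ ±4` modulo `9`

Extension of project CX (see `Y703/CX/Fin.lean` for the authors of its parts) from the squarefree to the
cube-free numbers, and to the subclass `D ≡ ±4` modulo `9` (helper419).
-/

set_option autoImplicit false

open scoped Classical

namespace Pool.Agent.R419.CG

open Finset Filter
open Pool.Agent.Y703.CT (NoSplit)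

theorem t_FIN : Tendsto
  (fun X : ℕ => (((Icc 1 X).filter fun D => Cls D ∧ NoSplit D).card : ℝ) /
    (((Icc 1 X).filter fun D => Cls D).card : ℝ)) atTop (nhds Pool.Agent.Y703.CX.c3) :=
  Asy.t_CF Pool.Agent.Y333.CX.t_LAM Pool.Agent.Y261.CX.t_BIL1 Pool.Agent.Y779.CX.t_BIL2
    Pool.Agent.Y419.CX.t_EQ (Pool.Agent.Y759.CX.t_LA Pool.Agent.Y461.CX.t_C3)
    Pool.Agent.Y488.CX.t_SIE Pool.Agent.Y495.CX.t_HAL low5 Pool.Agent.Y461.CX.t_C3

/-- the lower bound for the number of the `D` of the class -/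
theorem low : ∃ c : ℝ, 0 < c ∧ ∃ X₀ : ℕ, ∀ X : ℕ, X₀ ≤ X →
    c * X / Real.sqrt (Real.log X) ≤ (((Icc 1 X).filter fun D => Cls D).card : ℝ) := by
  obtain ⟨c, X₀, hc, h⟩ := low5
  refine ⟨c, hc, max X₀ 1, fun X hX => ?_⟩
  have h1 := h X ((le_max_left _ _).trans hX)
  have h2 : ((SS5 X).card : ℝ) ≤ (((Icc 1 X).filter fun D => Cls D).card : ℝ) := by
    rw [NS.cnt1 X]
    exact_mod_cast Asy.ss_le ((le_max_right _ _).trans hX)
  refine le_trans (le_of_eq ?_) (h1.trans h2)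
  rw [div_eq_mul_inv, Real.sqrt_eq_rpow, ← Real.rpow_neg (Real.log_natCast_nonneg X)]

end Pool.Agent.R419.CG
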